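import Pool.Agent.H69.DI.Stp

/-!
[H69 DI ALL] all larger steps, and the facts of the hand-in.
-/

set_option autoImplicit false

namespace Pool.Agent.H69.DI

open Finset Classical Filter Pool.Agent.H89.CY Pool.Agent.H8.SG

theorem steps0 (ε δ : ℝ) (hε : 0 < ε) (hε1 : ε ≤ 1) (hδ : 0 < δ) (hδ1 : δ ≤ 1 / 2) : ∃ n0 : ℕ, 3 ≤ n0 ∧
    ∀ t n : ℕ, n0 ≤ n → (n : ℝ) ^ (2 / 5 + δ) ≤ t →
    (n : ℝ) * (Real.log (c (n + 1 + t)) - Real.log (c (n + 1))) < t * Real.log (c (n + 1)) ^ ε := by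
  obtain ⟨n1, hn1⟩ := base ε δ hε hε1 hδ hδ1
  obtain ⟨C7, hC7, h7⟩ := Pool.Agent.H69.CU.all_n7
  obtain ⟨n2, hn2⟩ := eventually_atTop.1 (ev_rpow 1 δ C7 hδ hC7)
  obtain ⟨n3, hn3⟩ := eventually_atTop.1 (ev_rpow 1 (1 / 10) 4 (by norm_num) (by norm_num))
  refine ⟨max (max n1 n2) (max n3 3), (le_max_right _ _).trans (le_max_right _ _), ?_⟩
  intro t
  induction t using Nat.strong_induction_on with
  | _ t ih =>
  intro n hn ht
  have a1 : n1 ≤ n := ((le_max_left _ _).trans (le_max_left _ _)).trans hn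
  have a2 := hn2 n (((le_max_right _ _).trans (le_max_left _ _)).trans hn)
  have a3 := hn3 n (((le_max_left _ _).trans (le_max_right _ _)).trans hn)
  have a4 : 3 ≤ n := ((le_max_right _ _).trans (le_max_right _ _)).trans hn
  rw [Real.rpow_one] at a2 a3
  have hnR : (3 : ℝ) ≤ n := by exact_mod_cast a4
  have hn0 : (0 : ℝ) < n := by linarith
  have hn1R : (1 : ℝ) ≤ n := by linarith
  rcases le_or_gt ((t : ℝ) * Real.log n) n with hc | hc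
  · exact hn1 n t a1 ht hc
  have hl : 0 < Real.log (n : ℝ) := Real.log_pos (by linarith)
  obtain ⟨q, hq⟩ : ∃ q, q = (n : ℝ) ^ (9 / 10 : ℝ) := ⟨_, rfl⟩
  have hq1 : 1 ≤ q := by rw [hq]; exact Real.one_le_rpow hn1R (by norm_num)
  have hqn : q * (n : ℝ) ^ (1 / 10 : ℝ) = n := by
    rw [hq, ← Real.rpow_add hn0]
    norm_num
  have hq4 : 4 * q * Real.log n ≤ n := by
    calc 4 * q * Real.log n = q * (4 * Real.log n) := by ring
      _ ≤ q * (n : ℝ) ^ (1 / 10 : ℝ) := by gcongr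
      _ = n := hqn
  have hPq : (n : ℝ) ^ (2 / 5 + δ) ≤ q := by
    rw [hq]
    exact Real.rpow_le_rpow_of_exponent_le hn1R (by linarith)
  have hP1 : 1 ≤ (n : ℝ) ^ (2 / 5 + δ) := Real.one_le_rpow hn1R (by linarith)
  have ht4 : 4 * q < t := by
    by_contra hcon
    push Not at hcon
    have : (t : ℝ) * Real.log n ≤ 4 * q * Real.log n := by gcongr
    linarith
  obtain ⟨t1, ht1⟩ : ∃ t1 : ℕ, t1 = ⌈(n : ℝ) ^ (2 / 5 + δ)⌉₊ := ⟨_, rfl⟩
  have ht1a : (n : ℝ) ^ (2 / 5 + δ) ≤ t1 := by rw [ht1]; exact Nat.le_ceil _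
  have ht1b : (t1 : ℝ) ≤ 2 * q := by
    have h1 : (t1 : ℝ) < (n : ℝ) ^ (2 / 5 + δ) + 1 := by rw [ht1]; exact Nat.ceil_lt_add_one (by positivity)
    linarith
  have ht1c : 1 ≤ t1 := by
    have : (1 : ℝ) ≤ t1 := hP1.trans ht1a
    exact_mod_cast this
  have hlt : t1 < t := by
    have : (t1 : ℝ) < t := by linarith
    exact_mod_cast this
  obtain ⟨s, hs⟩ : ∃ s, t = t1 + s := ⟨t - t1, by omega⟩
  obtain ⟨n', hn'⟩ : ∃ n', n' = n + t1 := ⟨_, rfl⟩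
  have hsR : (t : ℝ) = t1 + s := by rw [hs]; push_cast; ring
  have hn'R : (n' : ℝ) = n + t1 := by rw [hn']; push_cast; ring
  have hqn2 : 2 * q ≤ n := by
    have h1 : 1 ≤ Real.log (n : ℝ) := by
      rw [Real.le_log_iff_exp_le hn0]
      linarith [Real.exp_one_lt_d9]
    nlinarith
  have hn'2 : (n' : ℝ) ≤ 2 * n := by rw [hn'R]; linarith
  have hn'0 : (0 : ℝ) < n' := by rw [hn'R]; positivity
  have hpw : (n' : ℝ) ^ (2 / 5 + δ) ≤ s := by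
    have h1 : (n' : ℝ) ^ (2 / 5 + δ) ≤ (2 * n : ℝ) ^ (2 / 5 + δ) := Real.rpow_le_rpow hn'0.le hn'2 (by linarith)
    have h2 : (2 * n : ℝ) ^ (2 / 5 + δ) = 2 ^ (2 / 5 + δ) * (n : ℝ) ^ (2 / 5 + δ) := Real.mul_rpow (by norm_num) hn0.le
    have h3 : (2 : ℝ) ^ (2 / 5 + δ) ≤ 2 := by
      have := Real.rpow_le_rpow_of_exponent_le (show (1 : ℝ) ≤ 2 by norm_num) (show 2 / 5 + δ ≤ 1 by linarith)
      rwa [Real.rpow_one] at this
    have h4 : (2 : ℝ) ^ (2 / 5 + δ) * (n : ℝ) ^ (2 / 5 + δ) ≤ 2 * q := by gcongr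
    linarith
  have hb := hn1 n t1 a1 ht1a (by
    calc (t1 : ℝ) * Real.log n ≤ 4 * q * Real.log n := by
          have : (t1 : ℝ) ≤ 4 * q := by linarith
          gcongr
      _ ≤ n := hq4)
  have hi := ih s (by omega) n' (by omega) hpw
  have e1 : n + 1 + t1 = n' + 1 := by omega
  have e2 : n' + 1 + s = n + 1 + t := by omega
  rw [e1] at hb
  rw [e2] at hi
  -- the ratio of the logarithms
  have hcA : (2 : ℝ) ≤ c (n + 1) := by exact_mod_cast (by omega : 2 ≤ n + 1).trans (c_ge (n + 1) (by omega))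
  have hcB : (2 : ℝ) ≤ c (n' + 1) := by exact_mod_cast (by omega : 2 ≤ n' + 1).trans (c_ge (n' + 1) (by omega))
  have hr := h7 n n' (by omega) (by
    rw [hn'R]
    have h1 : C7 * (n : ℝ) ^ (2 / 5 : ℝ) * Real.log n ≤ (n : ℝ) ^ (2 / 5 + δ) := by
      rw [Real.rpow_add hn0]
      calc C7 * (n : ℝ) ^ (2 / 5 : ℝ) * Real.log n = (n : ℝ) ^ (2 / 5 : ℝ) * (C7 * Real.log n) := by ring
        _ ≤ (n : ℝ) ^ (2 / 5 : ℝ) * (n : ℝ) ^ δ := by gcongr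
    linarith)
  rw [← Pool.Agent.H69.AL.c_eq, ← Pool.Agent.H69.AL.c_eq] at hr
  have hr2 := Real.log_lt_log (Real.rpow_pos_of_pos (by linarith) _) hr
  rw [Real.log_rpow (by linarith), Real.log_rpow (by linarith)] at hr2
  obtain ⟨A, hA⟩ : ∃ A, A = Real.log (c (n + 1) : ℝ) := ⟨_, rfl⟩
  obtain ⟨B, hB⟩ : ∃ B, B = Real.log (c (n' + 1) : ℝ) := ⟨_, rfl⟩
  rw [← hA, ← hB] at hr2
  rw [← hA, ← hB] at hb
  rw [← hB] at hi
  rw [← hA]
  have hA0 : 0 < A := by rw [hA]; exact Real.log_pos (by linarith)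
  have hB0 : 0 < B := by rw [hB]; exact Real.log_pos (by linarith)
  have hBA : B ≤ n' / n * A := by
    rw [one_div_mul_eq_div, one_div_mul_eq_div, div_lt_div_iff₀ hn'0 hn0] at hr2
    rw [div_mul_eq_mul_div, le_div_iff₀ hn0]
    linarith
  have hrat : 1 ≤ (n' : ℝ) / n := by
    rw [le_div_iff₀ hn0, hn'R]
    have : (0 : ℝ) ≤ t1 := Nat.cast_nonneg _
    linarith
  have hBe : n * B ^ ε ≤ n' * A ^ ε := by
    have h1 : B ^ ε ≤ (n' / n * A) ^ ε := Real.rpow_le_rpow hB0.le hBA hε.le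
    have h2 : ((n' : ℝ) / n * A) ^ ε = (n' / n) ^ ε * A ^ ε := Real.mul_rpow (by positivity) hA0.le
    have h3 : ((n' : ℝ) / n) ^ ε ≤ n' / n := by
      have := Real.rpow_le_rpow_of_exponent_le hrat hε1
      rwa [Real.rpow_one] at this
    have h4 : B ^ ε ≤ n' / n * A ^ ε := by
      rw [h2] at h1
      refine h1.trans ?_
      gcongr
    have h5 := mul_le_mul_of_nonneg_left h4 hn0.le
    have h6 : (n : ℝ) * (n' / n * A ^ ε) = n' * A ^ ε := by field_simp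
    linarith
  obtain ⟨Z, hZ⟩ : ∃ Z, Z = Real.log (c (n + 1 + t) : ℝ) := ⟨_, rfl⟩
  rw [← hZ] at hi ⊢
  have hs0 : (0 : ℝ) ≤ s := Nat.cast_nonneg _
  have hk : (n : ℝ) * (Z - B) < s * A ^ ε := by
    have h1 : (n : ℝ) * (n' * (Z - B)) < n * (s * B ^ ε) := mul_lt_mul_of_pos_left hi hn0
    have h2 : (s : ℝ) * (n * B ^ ε) ≤ s * (n' * A ^ ε) := mul_le_mul_of_nonneg_left hBe hs0
    have h3 : (n' : ℝ) * (n * (Z - B)) < n' * (s * A ^ ε) := by linarith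
    exact lt_of_mul_lt_mul_left h3 hn'0.le
  rw [hsR]
  linarith

theorem steps (ε δ : ℝ) (hε : 0 < ε) (hδ : 0 < δ) : ∃ n0 : ℕ, ∀ n t : ℕ, n0 ≤ n → (n : ℝ) ^ (2 / 5 + δ) ≤ t →
    (n : ℝ) * (Real.log (c (n + 1 + t)) - Real.log (c (n + 1))) < t * Real.log (c (n + 1)) ^ ε := by
  obtain ⟨n0, h3, h⟩ := steps0 (min ε 1) (min δ (1 / 2)) (lt_min hε one_pos) (min_le_right _ _)
    (lt_min hδ (by norm_num)) (min_le_right _ _)
  refine ⟨n0, fun n t hn ht => ?_⟩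
  have hnR : (3 : ℝ) ≤ n := by exact_mod_cast h3.trans hn
  have h1 := h t n hn (by
    refine le_trans (Real.rpow_le_rpow_of_exponent_le (by linarith) ?_) ht
    linarith [min_le_left δ (1 / 2)])
  refine h1.trans_le ?_
  have hc : (3 : ℝ) ≤ c (n + 1) := by exact_mod_cast (by omega : 3 ≤ n + 1).trans (c_ge (n + 1) (by omega))
  have hl : 1 ≤ Real.log (c (n + 1) : ℝ) := by
    rw [Real.le_log_iff_exp_le (by linarith)]
    linarith [Real.exp_one_lt_d9]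
  have h2 := Real.rpow_le_rpow_of_exponent_le hl (min_le_left ε 1)
  exact mul_le_mul_of_nonneg_left h2 (Nat.cast_nonneg _)

theorem dense2 (ε δ : ℝ) (hε : 0 < ε) (hδ : 0 < δ) : ∃ x0 : ℕ, ∀ x y : ℕ, x0 ≤ x → (x : ℝ) ^ (2 / 5 + δ) ≤ y →
    y ≤ x → (y : ℝ) / Real.log x ^ ε ≤ ({m : ℕ | Cyc m ∧ x < m ∧ m ≤ x + y}.ncard : ℝ) := by
  obtain ⟨x0, h⟩ := dense ε δ hε hδ
  refine ⟨x0, fun x y hx hy hyx => (h x y hx hy hyx).trans (le_of_eq ?_)⟩
  congr 1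
  rw [← Set.ncard_coe_finset]
  congr 1
  ext m
  simp only [coe_filter, mem_Ioc, Set.mem_ofPred_eq]
  tauto

end Pool.Agent.H69.DI
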