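import Pool.Agent.H8.SG.Main
import Pool.Agent.H69.AL.Sta

/-!
[H69 DI CNT] the number of cyclic numbers in a short interval, from the number of the blocks without one.
-/

set_option autoImplicit false

namespace Pool.Agent.H69.DI

open Finset Classical Filter Pool.Agent.H89.CY Pool.Agent.H8.SG

theorem cnt (D k X H S : ℕ) (hD : 2 ≤ D) (hS : D * (S + k) ≤ H) :
    S ≤ k * ((Ioc X (X + H)).filter Cyc).card +
      ((range S).filter (fun s => ∀ j < k, ¬ Cyc (1 + D * (X / D + 1) + D * (s + j)))).card := by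
  have hD0 : 0 < D := by omega
  obtain ⟨bad, hbad⟩ : ∃ bad, bad = (range S).filter (fun s => ∀ j < k,
      ¬ Cyc (1 + D * (X / D + 1) + D * (s + j))) := ⟨_, rfl⟩
  obtain ⟨good, hgood⟩ : ∃ good, good = (range S).filter (fun s => ¬ ∀ j < k,
      ¬ Cyc (1 + D * (X / D + 1) + D * (s + j))) := ⟨_, rfl⟩
  have hcard : bad.card + good.card = S := by
    rw [hbad, hgood, card_filter_add_card_filter_not, card_range]
  rw [← hbad]
  have hj : ∀ s, ∃ j, s ∈ good → j < k ∧ Cyc (1 + D * (X / D + 1) + D * (s + j)) := by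
    intro s
    by_cases hs : s ∈ good
    · have h6 := hs
      rw [hgood, mem_filter] at h6
      push Not at h6
      obtain ⟨j, hj1, hj2⟩ := h6.2
      exact ⟨j, fun _ => ⟨hj1, hj2⟩⟩
    · exact ⟨0, fun h => absurd h hs⟩
  choose j hj using hj
  have h13 : X < D * (X / D + 1) := Nat.lt_mul_div_succ X hD0
  have h14 : D * (X / D) ≤ X := Nat.mul_div_le X D
  have hmaps : ∀ s ∈ good, 1 + D * (X / D + 1) + D * (s + j s) ∈ (Ioc X (X + H)).filter Cyc := by
    intro s hs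
    obtain ⟨h7, h8⟩ := hj s hs
    have hsS : s < S := by
      rw [hgood, mem_filter, mem_range] at hs
      exact hs.1
    rw [mem_filter, mem_Ioc]
    refine ⟨⟨by omega, ?_⟩, h8⟩
    have h15 : D * (s + j s + 2) ≤ D * (S + k) := Nat.mul_le_mul_left D (by omega)
    have h16 : D * (s + j s + 2) = D * (s + j s) + D + D := by ring
    have h17 : D * (X / D + 1) = D * (X / D) + D := by ring
    omega
  have hfib : ∀ m ∈ (Ioc X (X + H)).filter Cyc,
      (good.filter (fun s => 1 + D * (X / D + 1) + D * (s + j s) = m)).card ≤ k := by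
    intro m _
    have h9 : (good.filter (fun s => 1 + D * (X / D + 1) + D * (s + j s) = m)).card ≤ (range k).card := by
      refine card_le_card_of_injOn j ?_ ?_
      · intro s hs
        have hs' := mem_filter.1 (mem_coe.1 hs)
        exact mem_coe.2 (mem_range.2 (hj s hs'.1).1)
      · intro a ha b hb hab
        have ha' := (mem_filter.1 (mem_coe.1 ha)).2
        have hb' := (mem_filter.1 (mem_coe.1 hb)).2
        have h11 : D * (a + j a) = D * (b + j b) := by omega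
        have h12 := Nat.eq_of_mul_eq_mul_left hD0 h11
        omega
    rwa [card_range] at h9
  have hle : good.card ≤ k * ((Ioc X (X + H)).filter Cyc).card := card_le_mul_card_image_of_maps_to hmaps k hfib
  omega

theorem ev_rpow (a b c : ℝ) (hb : 0 < b) (hc : 0 < c) :
    ∀ᶠ x : ℕ in atTop, c * Real.log x ^ a ≤ (x : ℝ) ^ b := by
  have t1 : Tendsto (fun x : ℕ => (x : ℝ)) atTop atTop := tendsto_natCast_atTop_atTop
  have h := (isLittleO_log_rpow_rpow_atTop a hb).def (show 0 < 1 / c by positivity)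
  filter_upwards [t1.eventually h, eventually_ge_atTop 3] with x hx hx3
  have hx3' : (3 : ℝ) ≤ x := by exact_mod_cast hx3
  have hl : 0 ≤ Real.log (x : ℝ) := Real.log_nonneg (by linarith)
  rw [Real.norm_of_nonneg (by positivity), Real.norm_of_nonneg (by positivity)] at hx
  calc c * Real.log x ^ a ≤ c * (1 / c * (x : ℝ) ^ b) := by gcongr
    _ = (x : ℝ) ^ b := by field_simp

theorem dense (ε δ : ℝ) (hε : 0 < ε) (hδ : 0 < δ) : ∃ x0 : ℕ, ∀ x y : ℕ, x0 ≤ x → (x : ℝ) ^ (2 / 5 + δ) ≤ y →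
    y ≤ x → (y : ℝ) / Real.log x ^ ε ≤ (((Ioc x (x + y)).filter Cyc).card : ℝ) := by
  obtain ⟨w, C, hw, hC, hsta⟩ := Pool.Agent.H69.AL.staS
  obtain ⟨K0, hK0⟩ := exists_nat_ge (8 / ε)
  obtain ⟨K, hKd⟩ : ∃ K, K = max 5 K0 := ⟨_, rfl⟩
  have hK5 : 5 ≤ K := by rw [hKd]; exact le_max_left _ _
  have hK8 : 8 / ε ≤ K := hK0.trans (by rw [hKd]; exact_mod_cast le_max_right _ _)
  set d : ℝ := min δ (1 / 10) / 2 with hd
  have hm : 0 < min δ (1 / 10) := lt_min hδ (by norm_num)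
  have hd0 : 0 < d := by rw [hd]; linarith
  have hd1 : d ≤ 1 / 10 := by
    have := min_le_right δ (1 / 10)
    rw [hd]; linarith
  have hdδ : 0 < δ - d := by
    have := min_le_left δ (1 / 10)
    rw [hd]; linarith
  obtain ⟨C0, W0, x1, hC0, hb1⟩ := hb d hd0 hd1
  obtain ⟨u0, hu0, h1⟩ := hsta K hK5 d C0 W0 x1 hd0 hC0 hb1
  set D := primorial w with hDd
  have hD2 : 2 ≤ D := two_le_prim w hw
  have hD2R : (2 : ℝ) ≤ D := by exact_mod_cast hD2
  have hKC1 : 1 ≤ K * C := Nat.mul_pos (by omega) (by omega)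
  have hKCR : (0 : ℝ) < ((K * C : ℕ) : ℝ) := by exact_mod_cast hKC1
  set e : ℝ := 1 / ((K * C : ℕ) : ℝ) with he
  have hep : 0 < e := by rw [he]; positivity
  have hKR : (0 : ℝ) < K := by exact_mod_cast (by omega : 0 < K)
  have hCR : (0 : ℝ) < C := by exact_mod_cast (by omega : 0 < C)
  have hexp4 : e * ((4 * C : ℕ) : ℝ) ≤ ε / 2 := by
    have e1 : e * ((4 * C : ℕ) : ℝ) = 4 / K := by
      rw [he]
      push_cast
      field_simp
    rw [e1, div_le_iff₀ hKR]
    rw [div_le_iff₀ hε] at hK8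
    linarith
  have tN : Tendsto (fun N : ℕ => Real.log (N : ℝ)) atTop atTop :=
    Real.tendsto_log_atTop.comp tendsto_natCast_atTop_atTop
  have e1 : ∀ᶠ z : ℝ in atTop, (u0 : ℝ) + 24 * D + 1 ≤ z ^ e := (tendsto_rpow_atTop hep).eventually_ge_atTop _
  have e2 : ∀ᶠ z : ℝ in atTop, 8 * (D : ℝ) ≤ z ^ (ε / 2) := (tendsto_rpow_atTop (by linarith)).eventually_ge_atTop _
  have e4 : ∀ᶠ z : ℝ in atTop, (1 : ℝ) ≤ z := eventually_ge_atTop 1
  obtain ⟨x2, hx2⟩ := eventually_atTop.1 (tN.eventually (e1.and (e2.and e4)))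
  obtain ⟨x3, hx3⟩ := eventually_atTop.1 (ev_rpow (ε / 2) (2 / 5) (8 * D) (by norm_num) (by positivity))
  have t1 : Tendsto (fun x : ℕ => (x : ℝ)) atTop atTop := tendsto_natCast_atTop_atTop
  obtain ⟨x4, hx4⟩ := eventually_atTop.1
    (((tendsto_rpow_atTop hdδ).comp t1).eventually_ge_atTop (4 : ℝ))
  refine ⟨max (max x2 x3) (max x4 3), fun x y hx hy hyx => ?_⟩
  obtain ⟨g1, g2, g4⟩ := hx2 x (((le_max_left _ _).trans (le_max_left _ _)).trans hx)
  have g3 := hx3 x (((le_max_right _ _).trans (le_max_left _ _)).trans hx)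
  have g5 := hx4 x (((le_max_left _ _).trans (le_max_right _ _)).trans hx)
  have g6 : 3 ≤ x := ((le_max_right _ _).trans (le_max_right _ _)).trans hx
  simp only [Function.comp] at g5
  have hx0 : (0 : ℝ) < x := by exact_mod_cast (by omega : 0 < x)
  have hx1' : (1 : ℝ) ≤ x := by exact_mod_cast (by omega : 1 ≤ x)
  set L := Real.log (x : ℝ) with hL
  have hL0 : 0 ≤ L := by linarith
  have hL00 : 0 < L := by linarith
  have hXx : (x : ℝ) = Real.exp L := by rw [hL, Real.exp_log hx0]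
  obtain ⟨p1, p2⟩ := pick2 (K * C) hKC1 L hL0
  rw [← he] at p1 p2
  set u := ⌊L ^ e⌋₊ with hu
  have hulow : (u0 : ℝ) + 24 * D ≤ u := by
    have h1 := (Nat.lt_floor_add_one (L ^ e)).le
    rw [← hu] at h1
    linarith
  have huu0 : u0 ≤ u := by
    have : (u0 : ℝ) ≤ u := by linarith
    exact_mod_cast this
  have hu24 : 24 * (D : ℝ) ≤ u := by
    have : (0 : ℝ) ≤ u0 := Nat.cast_nonneg _
    linarith
  have hule : (u : ℝ) ≤ L ^ e := Nat.floor_le (by positivity)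
  obtain ⟨k, hk⟩ : ∃ k : ℕ, k = u ^ (4 * C) := ⟨_, rfl⟩
  have hu1 : 1 ≤ u := hu0.trans huu0
  have hk1 : 1 ≤ k := by rw [hk]; exact Nat.one_le_pow _ _ (by omega)
  have hk1R : (1 : ℝ) ≤ k := by exact_mod_cast hk1
  have hkL : (k : ℝ) ≤ L ^ (ε / 2) := by
    calc (k : ℝ) = (u : ℝ) ^ (4 * C) := by rw [hk]; push_cast; rfl
      _ ≤ (L ^ e) ^ (4 * C) := pow_le_pow_left₀ (Nat.cast_nonneg _) hule _
      _ = L ^ (e * ((4 * C : ℕ) : ℝ)) := by rw [Real.rpow_mul hL0, Real.rpow_natCast]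
      _ ≤ L ^ (ε / 2) := Real.rpow_le_rpow_of_exponent_le g4 hexp4
  -- the half interval
  have hP0 : 0 < (x : ℝ) ^ (2 / 5 + d) := Real.rpow_pos_of_pos hx0 _
  have hP1 : 1 ≤ (x : ℝ) ^ (2 / 5 + d) := Real.one_le_rpow hx1' (by positivity)
  have hy4 : 4 * (x : ℝ) ^ (2 / 5 + d) ≤ y := by
    have e5 : (x : ℝ) ^ (2 / 5 + δ) = (x : ℝ) ^ (δ - d) * (x : ℝ) ^ (2 / 5 + d) := by
      rw [← Real.rpow_add hx0]
      congr 1
      ring
    rw [e5] at hy
    refine le_trans ?_ hy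
    gcongr
  have hy4N : 4 ≤ y := by
    have : (4 : ℝ) ≤ y := by linarith
    exact_mod_cast this
  obtain ⟨H, hH⟩ : ∃ H : ℕ, H = y / 2 := ⟨_, rfl⟩
  have hH4 : y ≤ 4 * H := by omega
  have hH4R : (y : ℝ) ≤ 4 * H := by exact_mod_cast hH4
  have hHP : (x : ℝ) ^ (2 / 5 + d) ≤ H := by linarith
  have h25 : (x : ℝ) ^ (2 / 5 : ℝ) ≤ (x : ℝ) ^ (2 / 5 + d) :=
    Real.rpow_le_rpow_of_exponent_le hx1' (by linarith)
  have hsta2 := h1 u huu0 x H (by rw [hXx]; gcongr) (by rw [hXx]; gcongr) hHP (by omega)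
  rw [← hk] at hsta2
  have hkD : 4 * (D : ℝ) * (k + 1) ≤ H := by
    have h2 : 4 * (D : ℝ) * (k + 1) ≤ 8 * D * L ^ (ε / 2) := by
      have h3 : (k : ℝ) + 1 ≤ 2 * L ^ (ε / 2) := by linarith
      calc 4 * (D : ℝ) * (k + 1) ≤ 4 * D * (2 * L ^ (ε / 2)) := by gcongr
        _ = 8 * D * L ^ (ε / 2) := by ring
    linarith
  have hkH : k ≤ H / D := by
    rw [Nat.le_div_iff_mul_le (by omega)]
    have h2 : (k : ℝ) * D ≤ H := by nlinarith
    exact_mod_cast h2
  have hcnt := cnt D k x H (H / D - k) hD2 (by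
    rw [Nat.sub_add_cancel hkH]
    exact Nat.mul_div_le H D)
  have hmono : ((range (H / D - k)).filter (fun s => ∀ j < k, ¬ Cyc (1 + D * (x / D + 1) + D * (s + j)))).card ≤
      ((range (H / D + 2)).filter (fun s => ∀ j < k, ¬ Cyc (1 + D * (x / D + 1) + D * (s + j)))).card := by
    refine card_le_card (filter_subset_filter _ ?_)
    intro s hs
    rw [mem_range] at hs ⊢
    omega
  obtain ⟨B, hB⟩ : ∃ B : ℕ, B = ((range (H / D + 2)).filter
      (fun s => ∀ j < k, ¬ Cyc (1 + D * (x / D + 1) + D * (s + j)))).card := ⟨_, rfl⟩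
  have hBle : (B : ℝ) ≤ H * Real.exp (-((u : ℝ) / 3)) := by
    rw [hB]
    convert hsta2
  obtain ⟨N, hN⟩ : ∃ N : ℕ, N = ((Ioc x (x + H)).filter Cyc).card := ⟨_, rfl⟩
  have hSN : H / D ≤ k * N + B + k := by
    rw [← hN] at hcnt
    rw [← hB] at hmono
    omega
  have hSNR : ((H / D : ℕ) : ℝ) ≤ k * N + B + k := by exact_mod_cast hSN
  have hDpos : (0 : ℝ) < D := by linarith
  have hHD : (H : ℝ) / D ≤ ((H / D : ℕ) : ℝ) + 1 := by
    rw [div_le_iff₀ hDpos]
    have h2 := (Nat.lt_mul_div_succ H (show 0 < D by omega)).le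
    have h3 : (H : ℝ) ≤ D * (((H / D : ℕ) : ℝ) + 1) := by exact_mod_cast h2
    linarith
  have hex : Real.exp (-((u : ℝ) / 3)) ≤ 1 / (8 * D) := by
    have h2 : 8 * (D : ℝ) ≤ Real.exp ((u : ℝ) / 3) := by
      have := Real.add_one_le_exp ((u : ℝ) / 3)
      linarith
    rw [Real.exp_neg, inv_eq_one_div]
    exact one_div_le_one_div_of_le (by positivity) h2
  have hH0 : (0 : ℝ) ≤ H := Nat.cast_nonneg _
  have hB8 : (B : ℝ) ≤ H / D / 8 := by
    refine hBle.trans ?_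
    calc (H : ℝ) * Real.exp (-((u : ℝ) / 3)) ≤ H * (1 / (8 * D)) := by gcongr
      _ = H / D / 8 := by field_simp
  have hk4 : (k : ℝ) + 1 ≤ H / D / 4 := by
    have h2 : (k : ℝ) + 1 ≤ H / (4 * D) := by
      rw [le_div_iff₀ (by positivity)]
      linarith
    have h3 : (H : ℝ) / (4 * D) = H / D / 4 := by field_simp
    linarith
  have hkN : (H : ℝ) / D / 2 ≤ k * N := by
    have h2 : 0 ≤ (H : ℝ) / D := by positivity
    linarith
  have hNN : N ≤ ((Ioc x (x + y)).filter Cyc).card := by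
    rw [hN]
    refine card_le_card (filter_subset_filter _ (Ioc_subset_Ioc_right ?_))
    omega
  have hNNR : (N : ℝ) ≤ (((Ioc x (x + y)).filter Cyc).card : ℝ) := by exact_mod_cast hNN
  refine le_trans ?_ hNNR
  have hLe : 0 < L ^ ε := Real.rpow_pos_of_pos hL00 _
  have hLe2 : 0 < L ^ (ε / 2) := Real.rpow_pos_of_pos hL00 _
  have hLL : L ^ ε = L ^ (ε / 2) * L ^ (ε / 2) := by
    rw [← Real.rpow_add hL00]
    congr 1
    ring
  rw [div_le_iff₀ hLe, hLL]
  have h5 : (H : ℝ) ≤ 2 * D * (k * N) := by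
    have h6 : (H : ℝ) = 2 * D * (H / D / 2) := by field_simp
    rw [h6]
    gcongr
  have hN0 : (0 : ℝ) ≤ N := Nat.cast_nonneg _
  calc (y : ℝ) ≤ 4 * H := hH4R
    _ ≤ 4 * (2 * D * (k * N)) := by linarith
    _ = (8 * D) * (k * N) := by ring
    _ ≤ L ^ (ε / 2) * (L ^ (ε / 2) * N) := by gcongr
    _ = N * (L ^ (ε / 2) * L ^ (ε / 2)) := by ring

end Pool.Agent.H69.DI
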