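import Pool.Agent.H69.DI.Cnt
import Pool.Agent.H69.AL.Lst
import Pool.Agent.H69.CY.Basic

/-!
[H69 DI STP] the inequality over at least `n ^ (2/5 + δ)` steps.
-/

set_option autoImplicit false

namespace Pool.Agent.H69.DI

open Finset Classical Filter Pool.Agent.H89.CY Pool.Agent.H8.SG

theorem nth_le (n t B : ℕ) (hn : 1 ≤ n) (ht : 1 ≤ t) (h : t ≤ ((Ioc (c n) B).filter Cyc).card) : c (n + t) ≤ B := by
  by_contra hcon
  push Not at hcon
  have hmono := Nat.nth_strictMono cyc_inf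
  have hsub : (Ioc (c n) B).filter Cyc ⊆ (Ioo (n - 1) (n + t - 1)).image (Nat.nth Cyc) := by
    intro x hx
    rw [mem_filter, mem_Ioc] at hx
    obtain ⟨⟨h1, h2⟩, h3⟩ := hx
    have h4 : Nat.nth Cyc (Nat.count Cyc x) = x := Nat.nth_count h3
    rw [mem_image]
    refine ⟨Nat.count Cyc x, ?_, h4⟩
    rw [mem_Ioo]
    constructor
    · rw [← hmono.lt_iff_lt, h4]
      exact h1
    · rw [← hmono.lt_iff_lt, h4]
      exact lt_of_le_of_lt h2 hcon
  have h5 := (card_le_card hsub).trans card_image_le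
  rw [Nat.card_Ioo] at h5
  omega

theorem base (ε δ : ℝ) (hε : 0 < ε) (hε1 : ε ≤ 1) (hδ : 0 < δ) (hδ1 : δ ≤ 1 / 2) : ∃ n0 : ℕ, ∀ n t : ℕ, n0 ≤ n →
    (n : ℝ) ^ (2 / 5 + δ) ≤ t → (t : ℝ) * Real.log n ≤ n →
    (n : ℝ) * (Real.log (c (n + 1 + t)) - Real.log (c (n + 1))) < t * Real.log (c (n + 1)) ^ ε := by
  obtain ⟨x0, hx0⟩ := dense (ε / 2) (δ / 2) (by linarith) (by linarith)
  obtain ⟨x3, hx3⟩ := eventually_atTop.1 (ev_rpow 1 (δ / 2) 56 (by linarith) (by norm_num))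
  have tN : Tendsto (fun N : ℕ => Real.log (N : ℝ)) atTop atTop :=
    Real.tendsto_log_atTop.comp tendsto_natCast_atTop_atTop
  have e1 : ∀ᶠ z : ℝ in atTop, (8 : ℝ) ≤ z := eventually_ge_atTop 8
  have e2 : ∀ᶠ z : ℝ in atTop, (3 : ℝ) ≤ z ^ (ε / 2) := (tendsto_rpow_atTop (by linarith)).eventually_ge_atTop _
  obtain ⟨x2, hx2⟩ := eventually_atTop.1 (tN.eventually (e1.and e2))
  refine ⟨max (max x0 x3) (max x2 10), fun n t hn ht htn => ?_⟩
  have a1 : x0 ≤ n := ((le_max_left _ _).trans (le_max_left _ _)).trans hn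
  have a2 := hx3 n (((le_max_right _ _).trans (le_max_left _ _)).trans hn)
  obtain ⟨a3, a4⟩ := hx2 n (((le_max_left _ _).trans (le_max_right _ _)).trans hn)
  have a5 : 10 ≤ n := ((le_max_right _ _).trans (le_max_right _ _)).trans hn
  have hnR : (10 : ℝ) ≤ n := by exact_mod_cast a5
  have hn0 : (0 : ℝ) < n := by linarith
  set l := Real.log (n : ℝ) with hl
  rw [Real.rpow_one] at a2
  obtain ⟨x, hx⟩ : ∃ x, x = c (n + 1) := ⟨_, rfl⟩
  have hnx : n + 1 ≤ x := by rw [hx]; exact c_ge (n + 1) (by omega)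
  have hnxR : (n : ℝ) + 1 ≤ x := by exact_mod_cast hnx
  have hxR0 : (0 : ℝ) < x := by linarith
  -- x is at most n ^ (1 + δ/2)
  have hxn : (x : ℝ) ≤ (n : ℝ) ^ (1 + δ / 2) := by
    have h1 : (x : ℝ) ≤ 14 * ((n + 1 : ℕ) : ℝ) * Real.log ((n + 1 : ℕ) : ℝ) := by
      rw [hx, Pool.Agent.H69.AL.c_eq]
      exact Pool.Agent.H69.CY.c_le (by omega)
    have h2 : Real.log ((n + 1 : ℕ) : ℝ) ≤ 2 * l := by
      have h3 : Real.log ((n + 1 : ℕ) : ℝ) ≤ Real.log ((n : ℝ) ^ 2) := by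
        apply Real.log_le_log (by positivity)
        push_cast
        nlinarith
      rw [Real.log_pow] at h3
      push_cast at h3 ⊢
      exact h3
    have h4 : ((n + 1 : ℕ) : ℝ) ≤ 2 * n := by
      push_cast
      linarith
    have hl0 : 0 ≤ l := by linarith
    calc (x : ℝ) ≤ 14 * ((n + 1 : ℕ) : ℝ) * Real.log ((n + 1 : ℕ) : ℝ) := h1
      _ ≤ 14 * (2 * n) * (2 * l) := by gcongr
      _ = n * (56 * l) := by ring
      _ ≤ n * (n : ℝ) ^ (δ / 2) := by gcongr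
      _ = (n : ℝ) ^ (1 + δ / 2) := by rw [Real.rpow_add hn0, Real.rpow_one]
  obtain ⟨Lx, hLx⟩ : ∃ Lx, Lx = Real.log (x : ℝ) := ⟨_, rfl⟩
  have hlLx : l ≤ Lx := by
    rw [hLx, hl]
    exact Real.log_le_log hn0 (by linarith)
  have hLx2 : Lx ≤ 2 * l := by
    rw [hLx]
    have h1 : Real.log (x : ℝ) ≤ Real.log ((n : ℝ) ^ (1 + δ / 2)) := Real.log_le_log hxR0 hxn
    rw [Real.log_rpow hn0] at h1
    have hl0 : 0 ≤ l := by linarith
    nlinarith
  have hLx0 : 0 < Lx := by linarith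
  have hLx1 : 1 ≤ Lx := by linarith
  obtain ⟨P, hP⟩ : ∃ P, P = Lx ^ (ε / 2) := ⟨_, rfl⟩
  have hP3 : 3 ≤ P := by
    rw [hP]
    exact a4.trans (Real.rpow_le_rpow (by linarith) hlLx (by linarith))
  have hPP : Lx ^ ε = P * P := by
    rw [hP, ← Real.rpow_add hLx0]
    congr 1
    ring
  have hPl : P ≤ l / 2 := by
    have h1 : P ≤ Lx ^ (1 / 2 : ℝ) := by
      rw [hP]
      exact Real.rpow_le_rpow_of_exponent_le hLx1 (by linarith)
    have h2 : Lx ^ (1 / 2 : ℝ) ≤ l / 2 := by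
      rw [← Real.sqrt_eq_rpow]
      apply Real.sqrt_le_iff.2
      constructor
      · linarith
      · nlinarith
    exact h1.trans h2
  have htR1 : (1 : ℝ) ≤ t := by
    refine le_trans ?_ ht
    exact Real.one_le_rpow (by linarith) (by linarith)
  have ht1 : 1 ≤ t := by exact_mod_cast htR1
  obtain ⟨y, hy⟩ : ∃ y : ℕ, y = ⌈(t : ℝ) * P⌉₊ := ⟨_, rfl⟩
  have hy1 : (t : ℝ) * P ≤ y := by rw [hy]; exact Nat.le_ceil _
  have hy2 : (y : ℝ) < t * P + 1 := by rw [hy]; exact Nat.ceil_lt_add_one (by positivity)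
  have hyx : y ≤ x := by
    have h1 : (t : ℝ) * P ≤ n / 2 := by nlinarith
    have h2 : (y : ℝ) ≤ x := by linarith
    exact_mod_cast h2
  have hxy : (x : ℝ) ^ (2 / 5 + δ / 2) ≤ y := by
    have h1 : (x : ℝ) ^ (2 / 5 + δ / 2) ≤ ((n : ℝ) ^ (1 + δ / 2)) ^ (2 / 5 + δ / 2) :=
      Real.rpow_le_rpow hxR0.le hxn (by linarith)
    rw [← Real.rpow_mul hn0.le] at h1
    have h2 : (n : ℝ) ^ ((1 + δ / 2) * (2 / 5 + δ / 2)) ≤ (n : ℝ) ^ (2 / 5 + δ) :=
      Real.rpow_le_rpow_of_exponent_le (by linarith) (by nlinarith)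
    nlinarith
  have hd := hx0 x y (by omega) hxy hyx
  rw [← hLx, ← hP] at hd
  have hcard : t ≤ ((Ioc (c (n + 1)) (x + y)).filter Cyc).card := by
    have h1 : (t : ℝ) ≤ y / P := by
      rw [le_div_iff₀ (by linarith)]
      exact hy1
    have h2 := h1.trans hd
    rw [← hx]
    exact_mod_cast h2
  have hle := nth_le (n + 1) t (x + y) (by omega) ht1 hcard
  have hleR : (c (n + 1 + t) : ℝ) ≤ x + y := by exact_mod_cast hle
  have hv0 : (0 : ℝ) < c (n + 1 + t) := by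
    have := c_ge (n + 1 + t) (by omega)
    exact_mod_cast (by omega : 0 < c (n + 1 + t))
  have hlog : Real.log (c (n + 1 + t)) - Real.log x ≤ y / x := by
    have h1 : Real.log ((c (n + 1 + t) : ℝ) / x) ≤ (c (n + 1 + t) : ℝ) / x - 1 :=
      Real.log_le_sub_one_of_pos (by positivity)
    rw [Real.log_div hv0.ne' hxR0.ne'] at h1
    have h2 : (c (n + 1 + t) : ℝ) / x ≤ (x + y) / x := by gcongr
    have h3 : ((x : ℝ) + y) / x = 1 + y / x := by field_simp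
    linarith
  rw [← hx, ← hLx, hPP]
  rw [hLx]
  have h5 : (n : ℝ) * (Real.log (c (n + 1 + t)) - Real.log x) ≤ n * (y / x) :=
    mul_le_mul_of_nonneg_left hlog hn0.le
  have h6 : (n : ℝ) * (y / x) ≤ y := by
    rw [← mul_div_assoc, div_le_iff₀ hxR0]
    have : (0 : ℝ) ≤ y := Nat.cast_nonneg _
    nlinarith
  have h7 : (t : ℝ) * P + 1 < t * (P * P) := by nlinarith
  linarith

end Pool.Agent.H69.DI
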